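import Pool.Agent.QUD.StmtsX

/-!
# Squad QUD (MP_5b0138_an), row FNX: a common side implies four sides (helper5)
-/

set_option autoImplicit false

namespace Pool.Agent.QUD.H5

open MeasureTheory Complex Filter Topology ProbabilityTheory Pool.Agent.H16Iso Pool.Agent.H62T
open Pool.Agent.H16F (Sublin ind Nm CP len qa c0 Ar MatchStatement AlgStatement IsoStatement
  RunStatement CombStatement)
open Pool.Agent.AEU Pool.Agent.XQ Pool.Agent.QUD
open Pool.Agent.H1Gen (det CCW poly)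
open Pool.Agent.H62T.H85 (nrm off)
open Pool.Agent.H16F.H69 (bt)

theorem sub_one_ne {m : ℕ} [NeZero m] (hm : 3 ≤ m) (i : Fin m) : i - 1 ≠ i := by
  intro h
  have h1 : (1 : Fin m) = 0 := sub_eq_self.mp h
  have h2 : ((1 : Fin m) : ℕ) = 0 := by rw [h1]; rfl
  rw [Fin.val_one'] at h2
  rw [Nat.mod_eq_of_lt (by omega)] at h2
  omega

theorem sum_far {m : ℕ} [NeZero m] (hm : 3 ≤ m) (i : Fin m) (f : Fin m → ℝ) :
    ∑ j, f j = ∑ j ∈ Finset.univ \ {i - 1, i}, f j + (f (i - 1) + f i) := by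
  rw [← Finset.sum_pair (sub_one_ne hm i), Finset.sum_sdiff (Finset.subset_univ _)]

theorem far4 : ∀ i : Fin 4, (Finset.univ : Finset (Fin 4)) \ {i - 1, i} = {i + 1, i + 2} := by
  decide

theorem sum_far4 (i : Fin 4) (f : Fin 4 → ℝ) :
    ∑ j ∈ Finset.univ \ {i - 1, i}, f j = f (i + 1) + f (i + 2) := by
  rw [far4 i, Finset.sum_pair]
  have : ∀ i : Fin 4, i + 1 ≠ i + 2 := by decide
  exact this i

/-- **FNX** -/
theorem fnx (hCys : CysStmt) (hN4i : N4iStmt) (hN4e : N4eStmt) (hCvl : CvlStmt)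
    (hCof : CofStmt) (hMatch : MatchStatement) (hIso : IsoStatement) : FnxStmt := by
  intro m _ v w hv hm hw hiso x y l0 hx0 hxpi hy0 hypi hxy hl0 hSv hSw
  have hpi := Real.pi_pos
  have h34 : 3 ≤ 4 := by norm_num
  have cv : CP (nrm v) (off v) (bt v) := Pool.Agent.H16F.H69.cp_of_cc h34 hv
  have cw : CP (nrm w) (off w) (bt w) := Pool.Agent.H16F.H69.cp_of_cc hm hw
  have pv : poly v = H62T.Poly (nrm v) (off v) := Pool.Agent.H62T.H85.poly_eq h34 hv
  have pw : poly w = H62T.Poly (nrm w) (off w) := Pool.Agent.H62T.H85.poly_eq hm hw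
  rw [pv, pw] at hiso
  obtain ⟨hA, hL, hC, -⟩ := hMatch 4 m (nrm v) (off v) (bt v) (nrm w) (off w) (bt w) cv cw hiso
  obtain ⟨hAv0, hAv, -⟩ := hIso 4 (nrm v) (off v) (bt v) cv
  obtain ⟨-, hAw, -⟩ := hIso m (nrm w) (off w) (bt w) cw
  have hq : qa (bt w) (off w) = qa (bt v) (off v) := by rw [← hAw, ← hAv, hA]
  have hq0 : 0 < qa (bt v) (off v) := by rw [← hAv]; exact hAv0
  obtain ⟨i, hil, hia⟩ := hCys 4 v h34 hv x y l0 hx0 hxpi hy0 hypi hSv
  obtain ⟨i', hil', hia'⟩ := hCys m w hm hw x y l0 hx0 hxpi hy0 hypi hSw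
  -- the two near angles
  have hsum : bt v (i - 1) + bt v i = (Real.pi - x) + (Real.pi - y) := by
    rcases hia with ⟨h1, h2⟩ | ⟨h1, h2⟩ <;> rw [h1, h2]
    ring
  have hsum' : bt w (i' - 1) + bt w i' = (Real.pi - x) + (Real.pi - y) := by
    rcases hia' with ⟨h1, h2⟩ | ⟨h1, h2⟩ <;> rw [h1, h2]
    ring
  have hsx : sx (bt v (i - 1)) (bt v i) l0 = sx (Real.pi - x) (Real.pi - y) l0 := by
    rcases hia with ⟨h1, h2⟩ | ⟨h1, h2⟩ <;> rw [h1, h2]
    unfold sx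
    rw [add_comm (Real.pi - y), mul_comm (Real.sin (Real.pi - y))]
  have hsx' : sx (bt w (i' - 1)) (bt w i') l0 = sx (Real.pi - x) (Real.pi - y) l0 := by
    rcases hia' with ⟨h1, h2⟩ | ⟨h1, h2⟩ <;> rw [h1, h2]
    unfold sx
    rw [add_comm (Real.pi - y), mul_comm (Real.sin (Real.pi - y))]
  have hmx : mx (bt v (i - 1)) (bt v i) = mx (Real.pi - x) (Real.pi - y) := by
    rcases hia with ⟨h1, h2⟩ | ⟨h1, h2⟩ <;> rw [h1, h2]
    unfold mx
    rw [add_comm]
  have hmx' : mx (bt w (i' - 1)) (bt w i') = mx (Real.pi - x) (Real.pi - y) := by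
    rcases hia' with ⟨h1, h2⟩ | ⟨h1, h2⟩ <;> rw [h1, h2]
    unfold mx
    rw [add_comm]
  have hc : c0 (bt v (i - 1)) + c0 (bt v i) = c0 (Real.pi - x) + c0 (Real.pi - y) := by
    rcases hia with ⟨h1, h2⟩ | ⟨h1, h2⟩ <;> rw [h1, h2]
    ring
  have hc' : c0 (bt w (i' - 1)) + c0 (bt w i') = c0 (Real.pi - x) + c0 (Real.pi - y) := by
    rcases hia' with ⟨h1, h2⟩ | ⟨h1, h2⟩ <;> rw [h1, h2]
    ring
  have hS0 : 0 < sx (Real.pi - x) (Real.pi - y) l0 := by
    unfold sx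
    have h1 : 0 < Real.sin (Real.pi - x) :=
      Real.sin_pos_of_pos_of_lt_pi (by linarith) (by linarith)
    have h2 : 0 < Real.sin (Real.pi - y) :=
      Real.sin_pos_of_pos_of_lt_pi (by linarith) (by linarith)
    have h3 : 0 < Real.sin (Real.pi - x + (Real.pi - y)) :=
      Real.sin_pos_of_pos_of_lt_pi (by linarith) (by linarith)
    positivity
  -- Lhuilier
  have e1 := hN4e (nrm v) (off v) (bt v) cv i (by rw [hsum]; linarith)
  have e2 := hN4i m (nrm w) (off w) (bt w) cw i' (by rw [hsum']; linarith)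
  rw [hil, hsx, hmx] at e1
  rw [hil', hsx', hmx', hq, ← hL, ← e1] at e2
  have hpos : 0 < 4 * (qa (bt v) (off v) + sx (Real.pi - x) (Real.pi - y) l0 * l0 / 2) := by
    have : 0 < sx (Real.pi - x) (Real.pi - y) l0 * l0 := mul_pos hS0 hl0
    linarith
  have hT : Tx (bt w) i' ≤ Tx (bt v) i := le_of_mul_le_mul_left e2 hpos
  unfold Tx at hT
  rw [hsum, hsum'] at hT
  have hT' : ∑ j ∈ Finset.univ \ {i' - 1, i'}, Real.tan (bt w j / 2)
      ≤ Real.tan (bt v (i + 1) / 2) + Real.tan (bt v (i + 2) / 2) := by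
    have h1 := sum_far4 i (fun j => Real.tan (bt v j / 2))

    linarith
  -- the sums of the far angles
  have hB : ∑ j ∈ Finset.univ \ {i' - 1, i'}, bt w j = bt v (i + 1) + bt v (i + 2) := by
    have h1 := sum_far h34 i (bt v)
    have h2 := sum_far hm i' (bt w)
    have h3 := Pool.Agent.H16F.H69.sum_bt h34 hv
    have h4 := Pool.Agent.H16F.H69.sum_bt hm hw
    have h5 := sum_far4 i (bt v)
    linarith
  have hG : ∑ j ∈ Finset.univ \ {i' - 1, i'}, Gk (bt w j)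
      = Gk (bt v (i + 1)) + Gk (bt v (i + 2)) := by
    have h1 := sum_far h34 i (fun j => c0 (bt v j))
    have h2 := sum_far hm i' (fun j => c0 (bt w j))
    have h5 := sum_far4 i (fun j => c0 (bt v j))

    have h6 : ∀ j, c0 (bt w j) = Gk (bt w j) := fun j =>
      hCof _ (Pool.Agent.H16F.H69.bt_pos hm hw j) (Pool.Agent.H16F.H69.bt_lt hm hw j)
    have h7 : ∀ j, c0 (bt v j) = Gk (bt v j) := fun j =>
      hCof _ (Pool.Agent.H16F.H69.bt_pos h34 hv j) (Pool.Agent.H16F.H69.bt_lt h34 hv j)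
    have h8 : ∑ j ∈ Finset.univ \ {i' - 1, i'}, Gk (bt w j) =
        ∑ j ∈ Finset.univ \ {i' - 1, i'}, c0 (bt w j) :=
      Finset.sum_congr rfl fun j _ => (h6 j).symm
    rw [h8, ← h7, ← h7]
    linarith
  have hcard := hCvl (bt v (i + 1)) (bt v (i + 2)) m (Finset.univ \ {i' - 1, i'}) (bt w)
    (Pool.Agent.H16F.H69.bt_pos h34 hv _) (Pool.Agent.H16F.H69.bt_lt h34 hv _)
    (Pool.Agent.H16F.H69.bt_pos h34 hv _) (Pool.Agent.H16F.H69.bt_lt h34 hv _)
    (fun k _ => ⟨Pool.Agent.H16F.H69.bt_pos hm hw k, Pool.Agent.H16F.H69.bt_lt hm hw k⟩)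
    hB hG hT'
  rw [Finset.card_univ_sdiff, Finset.card_pair (sub_one_ne hm i'), Fintype.card_fin] at hcard
  omega

end Pool.Agent.QUD.H5
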