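import Pool.Agent.QUD.StmtsU

/-!
Squad QUD, row POL: the simple pole of `FR b` at `zb b` (helper5).
-/

set_option autoImplicit false

namespace Pool.Agent.QUD.H5

open MeasureTheory Filter Topology Real Set Pool.Agent.AEU Pool.Agent.AEU.H12 Pool.Agent.XQ
  Pool.Agent.XQ.U

/-- the denominator -/
noncomputable def GD (b ζ : ℝ) : ℝ := cos (2 * b * arcsin (√ζ)) - cos (b * π)

theorem GD_an {b ζ : ℝ} (h0 : 0 < ζ) (h1 : ζ < 1) : AnalyticAt ℝ (GD b) ζ := by
  have e1 : AnalyticAt ℝ (fun x : ℝ => √x) ζ :=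
    (Real.contDiffAt_sqrt (n := ⊤) h0.ne').analyticAt
  have hs : √ζ < 1 := by
    rw [Real.sqrt_lt' one_pos]
    simpa using h1
  have hs0 : 0 ≤ √ζ := Real.sqrt_nonneg ζ
  have e2 : AnalyticAt ℝ arcsin (√ζ) :=
    (Real.contDiffAt_arcsin (n := ⊤) (by linarith) hs.ne).analyticAt
  have e3 : AnalyticAt ℝ (fun x : ℝ => arcsin (√x)) ζ := e2.comp e1
  have e4 : AnalyticAt ℝ (fun x : ℝ => 2 * b * arcsin (√x)) ζ := analyticAt_const.mul e3
  have e5 : AnalyticAt ℝ cos (2 * b * arcsin (√ζ)) := Real.analyticAt_cos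
  have e6 : AnalyticAt ℝ (fun x : ℝ => cos (2 * b * arcsin (√x))) ζ :=
    AnalyticAt.comp (g := cos) (f := fun x : ℝ => 2 * b * arcsin (√x)) e5 e4
  exact e6.sub analyticAt_const

theorem GD_deriv {b ζ : ℝ} (h0 : 0 < ζ) (h1 : ζ < 1) :
    HasDerivAt (GD b)
      (-sin (2 * b * arcsin (√ζ)) * (2 * b * (1 / √(1 - √ζ ^ 2) * (1 / (2 * √ζ))))) ζ := by
  have hs : √ζ < 1 := by
    rw [Real.sqrt_lt' one_pos]
    simpa using h1
  have hs0 : 0 ≤ √ζ := Real.sqrt_nonneg ζ
  have e1 : HasDerivAt (fun x : ℝ => √x) (1 / (2 * √ζ)) ζ := Real.hasDerivAt_sqrt h0.ne'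
  have e2 : HasDerivAt arcsin (1 / √(1 - √ζ ^ 2)) (√ζ) :=
    Real.hasDerivAt_arcsin (by linarith) hs.ne
  have e3 : HasDerivAt (fun x : ℝ => arcsin (√x)) (1 / √(1 - √ζ ^ 2) * (1 / (2 * √ζ))) ζ :=
    HasDerivAt.comp ζ e2 e1
  have e4 : HasDerivAt (fun x : ℝ => 2 * b * arcsin (√x))
      (2 * b * (1 / √(1 - √ζ ^ 2) * (1 / (2 * √ζ)))) ζ := e3.const_mul (2 * b)
  exact (e4.cos).sub_const _

/-- **POL** -/
theorem pol (anf : AnfStmt) : PolStmt := by
  intro b hb
  have hanf := (anf b hb).1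
  obtain ⟨hb1, hb2⟩ := hb
  have hpi := pi_pos
  have hb0 : 0 < b := by linarith
  have h1 : π / b < π := by
    rw [div_lt_iff₀ hb0]
    nlinarith
  have h2 : π / 2 < π / b := div_lt_div_of_pos_left hpi hb0 hb2
  obtain ⟨φ, hφ⟩ : ∃ φ, φ = π / b - π / 2 := ⟨_, rfl⟩
  have hφ0 : 0 < φ := by linarith
  have hφ1 : φ < π / 2 := by linarith
  have hc : cos (π / b) = -sin φ := by
    rw [hφ, sin_sub_pi_div_two]
    ring
  have hsφ : 0 < sin φ := sin_pos_of_pos_of_lt_pi hφ0 (by linarith)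
  have hcφ : 0 < cos φ := cos_pos_of_mem_Ioo ⟨by linarith, hφ1⟩
  have hz : zb b = sin φ ^ 2 := by
    unfold zb
    rw [hc]
    ring
  have hz0 : 0 < zb b := by
    rw [hz]
    positivity
  have hz1 : zb b < 1 := by
    rw [hz]
    have := sin_sq_add_cos_sq φ
    nlinarith
  have hsq : √(zb b) = sin φ := by rw [hz, sqrt_sq hsφ.le]
  have harc : arcsin (√(zb b)) = φ := by
    rw [hsq, arcsin_sin (by linarith) (by linarith)]
  have hbφ : 2 * b * φ = 2 * π - b * π := by
    rw [hφ]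
    field_simp
  have hsb : sin (b * π) < 0 := by
    have h3 : 0 < sin (b * π - π) := sin_pos_of_pos_of_lt_pi (by nlinarith) (by nlinarith)
    rw [sin_sub_pi] at h3
    linarith
  have hG0 : GD b (zb b) = 0 := by
    unfold GD
    rw [harc, hbφ, cos_two_pi_sub]
    ring
  obtain ⟨K, hK⟩ : ∃ K, K = b / 2 * (-sin (b * π)) := ⟨_, rfl⟩
  have hK0 : 0 < K := by
    rw [hK]
    have : 0 < -sin (b * π) := by linarith
    positivity
  have hGd := GD_deriv (b := b) hz0 hz1
  have hGneg : deriv (GD b) (zb b) < 0 := by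
    rw [hGd.deriv, harc, hbφ, sin_two_pi_sub, hsq]
    have h3 : 0 < √(1 - sin φ ^ 2) := by
      apply Real.sqrt_pos.mpr
      have := sin_sq_add_cos_sq φ
      nlinarith
    have h4 : 0 < 2 * b * (1 / √(1 - sin φ ^ 2) * (1 / (2 * sin φ))) := by positivity
    have h5 : -(-sin (b * π)) < 0 := by linarith
    exact mul_neg_of_neg_of_pos h5 h4
  obtain ⟨p, hp⟩ := GD_an (b := b) hz0 hz1
  have hdan : AnalyticAt ℝ (dslope (GD b) (zb b)) (zb b) :=
    ⟨_, hp.has_fpower_series_dslope_fslope⟩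
  classical
  obtain ⟨r, hr⟩ : ∃ r : ℝ → ℝ, r = fun ζ => if ζ < zb b then (zb b - ζ) * FR b ζ
    else K / (-dslope (GD b) (zb b) ζ) := ⟨_, rfl⟩
  have hrval : r (zb b) = K / (-deriv (GD b) (zb b)) := by
    rw [hr]
    show (if zb b < zb b then _ else _) = _
    rw [if_neg (lt_irrefl _), dslope_same]
  refine ⟨r, ?_, ?_, ?_⟩
  · intro ζ hζ
    rcases lt_or_eq_of_le hζ.2 with hlt | heq
    · have e1 : AnalyticAt ℝ (fun x => (zb b - x) * FR b x) ζ :=
        (analyticAt_const.sub analyticAt_id).mul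
          (hanf ζ ⟨by linarith [hζ.1], hlt⟩)
      refine e1.congr ?_
      filter_upwards [Iio_mem_nhds hlt] with x hx
      rw [hr]
      show _ = (if x < zb b then _ else _)
      rw [if_pos (Set.mem_Iio.mp hx)]
    · rw [heq]
      have e1 : AnalyticAt ℝ (fun x => K / (-dslope (GD b) (zb b) x)) (zb b) := by
        refine analyticAt_const.div hdan.neg ?_
        show -dslope (GD b) (zb b) (zb b) ≠ 0
        rw [dslope_same]
        linarith
      refine e1.congr ?_
      have hne : ∀ᶠ x in 𝓝 (zb b), dslope (GD b) (zb b) x ≠ 0 := by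
        apply hdan.continuousAt.eventually_ne
        rw [dslope_same]
        exact hGneg.ne
      filter_upwards [hne, Ioi_mem_nhds hz0] with x hx hx0
      rw [hr]
      show _ = (if x < zb b then _ else _)
      split_ifs with hlt
      · have h3 : FR b x = K / GD b x := by
          unfold FR GD
          rw [if_pos (le_of_lt hx0), hK]
        have h4 : GD b x = (x - zb b) * dslope (GD b) (zb b) x := by
          rw [dslope_of_ne _ hlt.ne, slope_def_field, hG0]
          have : x - zb b ≠ 0 := by linarith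
          field_simp
          ring
        have h5 : x - zb b ≠ 0 := by linarith
        rw [h3, h4]
        field_simp
        ring
      · rfl
  · rw [hrval]
    have : 0 < -deriv (GD b) (zb b) := by linarith
    positivity
  · intro ζ hζ
    have h3 : zb b - ζ ≠ 0 := by linarith [hζ.2]
    rw [hr]
    show _ = (if ζ < zb b then _ else _) / _
    rw [if_pos hζ.2]
    field_simp

end Pool.Agent.QUD.H5
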