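import Pool.Agent.Helper9_QUD.UQB

/-!
Squad QUD, row UQM: exactly one item of the type A on both sides (helper5).
-/

set_option autoImplicit false

namespace Pool.Agent.QUD.H5

open MeasureTheory Filter Topology Real Set Pool.Agent.AEU Pool.Agent.AEU.H12 Pool.Agent.XQ
  Pool.Agent.XQ.U Pool.Agent.QUD.H9U

theorem om_obt {p : ℝ × ℝ} (h : obt p) : om p = 0 := by
  unfold om
  rw [if_pos h]

theorem wt_obt {p : ℝ × ℝ} (h : obt p) (α : ℝ) : wt α p = 0 := by
  unfold wt
  rw [om_obt h]
  split_ifs <;> rfl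

theorem ct_obt {p : ℝ × ℝ} (h : obt p) : ct p = 0 := by
  unfold ct
  rw [om_obt h, zero_mul]

/-- the three kinds of lists -/
theorem norm3 (l : List (ℝ × ℝ)) (p : ℝ × ℝ) (h : Itm l) (ho : oA l = [p]) :
    (l = [p] ∧ ∀ α, (l.map (wt α)).sum = 0) ∨
    ∃ a b c, p = (a, b) ∧ (l = [(a, b), (a, c)] ∨ l = [(a, c), (a, b)]) ∧ Good a c ∧
      (∀ α, (l.map (wt α)).sum = W α a c) ∧ (l.map ct).sum = C a c := by
  unfold oA at ho
  rcases h with rfl | ⟨a, b, rfl, hk⟩ | ⟨a, b, c, rfl, hk, hk', -⟩
  · simp at ho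
  · left
    by_cases h1 : obt (a, b)
    · rw [List.filter_cons_of_pos (by simpa using h1), List.filter_nil] at ho
      refine ⟨ho, fun α => ?_⟩
      simp [wt_obt h1]
    · rw [List.filter_cons_of_neg (by simpa using h1), List.filter_nil] at ho
      simp at ho
  · by_cases h1 : obt (a, b)
    · by_cases h2 : obt (a, c)
      · rw [List.filter_cons_of_pos (by simpa using h1),
          List.filter_cons_of_pos (by simpa using h2), List.filter_nil] at ho
        simp at ho
      · rw [List.filter_cons_of_pos (by simpa using h1),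
          List.filter_cons_of_neg (by simpa using h2), List.filter_nil] at ho
        right
        obtain ⟨g, w, k⟩ := item1 hk' h2 h1.1
        have hp : p = (a, b) := by
          have := List.head_eq_of_cons_eq ho
          exact this.symm
        exact ⟨a, b, c, hp, Or.inl rfl, g, fun α => by simp [w, wt_obt h1],
          by simp [k, ct_obt h1]⟩
    · by_cases h2 : obt (a, c)
      · rw [List.filter_cons_of_neg (by simpa using h1),
          List.filter_cons_of_pos (by simpa using h2), List.filter_nil] at ho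
        right
        obtain ⟨g, w, k⟩ := item1 hk h1 h2.1
        have hp : p = (a, c) := by
          have := List.head_eq_of_cons_eq ho
          exact this.symm
        exact ⟨a, c, b, hp, Or.inr rfl, g, fun α => by simp [w, wt_obt h2],
          by simp [k, ct_obt h2]⟩
      · rw [List.filter_cons_of_neg (by simpa using h1),
          List.filter_cons_of_neg (by simpa using h2), List.filter_nil] at ho
        simp at ho

/-- **UQM** -/
theorem uqm (mce : MceStmt) : UqmStmt := by
  intro l l' p q h h' ho ho' hpq hW hC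
  rcases norm3 l p h ho with ⟨e, e1⟩ | ⟨a, b, c, ep, el, g, e1, e2⟩ <;>
    rcases norm3 l' q h' ho' with ⟨e', e1'⟩ | ⟨a', b', c', eq, el', g', e1', e2'⟩
  · exact Or.inr (Or.inl ⟨p, q, e, e', hpq⟩)
  · exfalso
    have := hW a'
    rw [e1, e1', W_self] at this
    have := ww_pos c'
    linarith
  · exfalso
    have := hW a
    rw [e1, e1', W_self] at this
    have := ww_pos c
    linarith
  · obtain ⟨rfl, rfl⟩ := L_SS mce g g' (fun α => by rw [← e1, ← e1', hW α])
      (by rw [← e2, ← e2', hC])
    have hb : b = b' := by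
      rcases hpq with h1 | h1
      · rw [ep, eq] at h1
        exact (Prod.mk.inj h1).2
      · rw [ep, eq, Prod.swap_prod_mk] at h1
        have h2 := (Prod.mk.inj h1).1
        have h3 := (Prod.mk.inj h1).2
        rw [h3, ← h2]
    subst hb
    rcases el with el | el <;> rcases el' with el' | el'
    · exact Or.inr (Or.inr ⟨a, b, c, a, b, c, el, el', Or.inl ⟨rfl, Or.inl ⟨rfl, rfl⟩⟩⟩)
    · exact Or.inr (Or.inr ⟨a, b, c, a, c, b, el, el', Or.inl ⟨rfl, Or.inr ⟨rfl, rfl⟩⟩⟩)
    · exact Or.inr (Or.inr ⟨a, c, b, a, b, c, el, el', Or.inl ⟨rfl, Or.inr ⟨rfl, rfl⟩⟩⟩)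
    · exact Or.inr (Or.inr ⟨a, c, b, a, c, b, el, el', Or.inl ⟨rfl, Or.inl ⟨rfl, rfl⟩⟩⟩)

end Pool.Agent.QUD.H5
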